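import Pool.Agent.H211.HY.Stm1

/-!
# HY211 SOLVE: solving the equations by contraction
-/

set_option autoImplicit false

open Topology Filter Metric Set

namespace Pool.Agent.H190.HY211

open Pool.Agent.H211.HY

/-- Lipschitz estimate for bounded holomorphic functions -/
theorem lip_of_bound {E : Type*} [NormedAddCommGroup E] [NormedSpace ℂ E] {e : E → ℂ} {r M : ℝ}
    (hr : 0 < r) (hM : 0 ≤ M) (hd : DifferentiableOn ℂ e (ball 0 r))
    (hb : ∀ s ∈ ball (0 : E) r, ‖e s‖ ≤ M) (s s' : E) (hs : ‖s‖ ≤ r / 2) (hs' : ‖s'‖ ≤ r / 2) :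
    ‖e s' - e s‖ ≤ 4 * M / r * ‖s' - s‖ := by
  have hsr : s ∈ ball (0 : E) r := by rw [mem_ball_zero_iff]; linarith
  have hsr' : s' ∈ ball (0 : E) r := by rw [mem_ball_zero_iff]; linarith
  rcases lt_or_ge ‖s' - s‖ (r / 2) with h | h
  · have hsub : ball s (r / 2) ⊆ ball (0 : E) r := by
      intro u hu
      rw [mem_ball_iff_norm] at hu
      rw [mem_ball_zero_iff]
      have h1 : ‖u‖ ≤ ‖u - s‖ + ‖s‖ := by
        have := norm_add_le (u - s) s
        rwa [sub_add_cancel] at this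
      linarith
    have h1 := Complex.dist_le_div_mul_dist_of_mapsTo_ball (R₂ := 2 * M) (hd.mono hsub)
      (by
        intro u hu
        rw [mem_closedBall_iff_norm]
        have h2 := norm_sub_le (e u) (e s)
        have h3 := hb u (hsub hu)
        have h4 := hb s hsr
        linarith) (show s' ∈ ball s (r / 2) by rw [mem_ball_iff_norm]; exact h)
    rw [dist_eq_norm, dist_eq_norm] at h1
    refine h1.trans (le_of_eq ?_)
    field_simp
    ring
  · have h2 := norm_sub_le (e s') (e s)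
    have h3 := hb s' hsr'
    have h4 := hb s hsr
    have h5 : 2 * M ≤ 4 * M / r * ‖s' - s‖ := by
      rw [div_mul_eq_mul_div, le_div_iff₀ hr]
      have h6 : M * (r / 2) ≤ M * ‖s' - s‖ := mul_le_mul_of_nonneg_left h hM
      linarith
    linarith

/-- the contraction principle in the form used here -/
theorem fixed_point {k : ℕ} {R : ℝ} (hR : 0 ≤ R) (Φ : (Fin k → ℂ) → Fin k → ℂ)
    (hmap : ∀ s : Fin k → ℂ, ‖s‖ ≤ R → ∀ i, ‖Φ s i‖ ≤ R)
    (hlip : ∀ s s' : Fin k → ℂ, ‖s‖ ≤ R → ‖s'‖ ≤ R → ∀ i, ‖Φ s' i - Φ s i‖ ≤ 1 / 2 * ‖s' - s‖) :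
    ∃ s : Fin k → ℂ, ‖s‖ ≤ R ∧ Φ s = s := by
  have hmaps : MapsTo Φ (closedBall 0 R) (closedBall 0 R) := by
    intro s hs
    rw [mem_closedBall_zero_iff] at hs ⊢
    exact (pi_norm_le_iff_of_nonneg hR).2 (hmap s hs)
  have hK : ContractingWith (1 / 2 : NNReal) (hmaps.restrict Φ _ _) := by
    refine ⟨by norm_num, LipschitzWith.of_dist_le_mul fun a b => ?_⟩
    rw [Subtype.dist_eq, Subtype.dist_eq, dist_eq_norm, dist_eq_norm]
    have ha : ‖(a : Fin k → ℂ)‖ ≤ R := mem_closedBall_zero_iff.1 a.2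
    have hb : ‖(b : Fin k → ℂ)‖ ≤ R := mem_closedBall_zero_iff.1 b.2
    refine (pi_norm_le_iff_of_nonneg (by positivity)).2 fun i => ?_
    have h1 := hlip b a hb ha i
    have h2 : ((1 / 2 : NNReal) : ℝ) = 1 / 2 := by norm_num
    rw [h2]
    exact h1
  obtain ⟨y, hy, hfy, -⟩ := hK.exists_fixedPoint' (isClosed_closedBall.isComplete) hmaps
    (x := 0) (mem_closedBall_self hR) (edist_ne_top _ _)
  exact ⟨y, mem_closedBall_zero_iff.1 hy, hfy⟩

/-- the solution of the equations, when the targets have been chosen -/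
theorem solve_aux {k : ℕ} {r κ₀ : ℝ} (hr : 0 < r) (hκ₀ : 0 < κ₀)
    (Y : Fin k → (Fin k → ℂ) → ℂ) (q : Fin k → (Fin k → ℂ) → ℂ) (κ D Z : Fin k → ℂ)
    (hκ : ∀ i, κ₀ ≤ ‖κ i‖) (hD : ∀ i, D i ≠ 0)
    (hYd : ∀ i, DifferentiableOn ℂ (Y i) (ball 0 r))
    (hYb : ∀ i, ∀ s ∈ ball (0 : Fin k → ℂ) r,
      ‖Y i s - Z i - κ i * D i * s i‖ ≤ κ₀ / 64 * r * ‖D i‖)
    (hq0 : ∀ i, ‖q i 0 - Z i‖ ≤ κ₀ / 64 * r * ‖D i‖)
    (hqL : ∀ i, ∀ s ∈ ball (0 : Fin k → ℂ) r, ∀ s' ∈ ball (0 : Fin k → ℂ) r,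
      ‖q i s - q i s'‖ ≤ κ₀ / 64 * ‖D i‖ * ‖s - s'‖) :
    ∃ s : Fin k → ℂ, ‖s‖ ≤ r / 2 ∧ ∀ i, Y i s = q i s := by
  have hκD : ∀ i, κ i * D i ≠ 0 := by
    intro i
    refine mul_ne_zero (fun h => ?_) (hD i)
    have := hκ i
    rw [h, norm_zero] at this
    linarith
  have hDp : ∀ i, 0 < ‖D i‖ := fun i => norm_pos_iff.2 (hD i)
  have hκDn : ∀ i, κ₀ * ‖D i‖ ≤ ‖κ i * D i‖ := by
    intro i
    rw [norm_mul]
    exact mul_le_mul_of_nonneg_right (hκ i) (norm_nonneg _)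
  -- the error
  set e : Fin k → (Fin k → ℂ) → ℂ := fun i s => Y i s - Z i - κ i * D i * s i with he
  have hed : ∀ i, DifferentiableOn ℂ (e i) (ball 0 r) := by
    intro i
    refine ((hYd i).sub (differentiableOn_const _)).sub ?_
    refine (differentiableOn_const _).mul ?_
    exact (differentiable_apply i).differentiableOn
  have hel : ∀ i, ∀ s s' : Fin k → ℂ, ‖s‖ ≤ r / 2 → ‖s'‖ ≤ r / 2 →
      ‖e i s' - e i s‖ ≤ κ₀ / 16 * ‖D i‖ * ‖s' - s‖ := by
    intro i s s' hs hs'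
    have h1 := lip_of_bound hr (by positivity) (hed i) (hYb i) s s' hs hs'
    refine h1.trans (le_of_eq ?_)
    field_simp
    ring
  set Φ : (Fin k → ℂ) → Fin k → ℂ := fun s i => s i - (Y i s - q i s) / (κ i * D i) with hΦ
  have hΦe : ∀ s i, Φ s i = (q i s - Z i - e i s) / (κ i * D i) := by
    intro s i
    show s i - (Y i s - q i s) / (κ i * D i) =
      (q i s - Z i - (Y i s - Z i - κ i * D i * s i)) / (κ i * D i)
    rw [eq_div_iff (hκD i), sub_mul, div_mul_cancel₀ _ (hκD i)]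
    ring
  obtain ⟨s, hs, hfix⟩ := fixed_point (R := r / 2) (by positivity) Φ (by
    intro s hs i
    have hsr : s ∈ ball (0 : Fin k → ℂ) r := by rw [mem_ball_zero_iff]; linarith
    rw [hΦe, norm_div, div_le_iff₀ (norm_pos_iff.2 (hκD i))]
    have h1 : ‖q i s - Z i - e i s‖ ≤ ‖q i s - q i 0‖ + ‖q i 0 - Z i‖ + ‖e i s‖ := by
      have h2 : q i s - Z i - e i s = (q i s - q i 0) + (q i 0 - Z i) - e i s := by ring
      rw [h2]
      exact (norm_sub_le _ _).trans (add_le_add (norm_add_le _ _) le_rfl)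
    have h3 := hqL i s hsr 0 (mem_ball_self hr)
    rw [sub_zero] at h3
    have h4 := hq0 i
    have h5 := hYb i s hsr
    have h6 : κ₀ / 64 * ‖D i‖ * ‖s‖ ≤ κ₀ / 64 * ‖D i‖ * (r / 2) :=
      mul_le_mul_of_nonneg_left hs (by positivity)
    have h7 : r / 2 * (κ₀ * ‖D i‖) ≤ r / 2 * ‖κ i * D i‖ :=
      mul_le_mul_of_nonneg_left (hκDn i) (by positivity)
    have h8 : 0 < κ₀ * ‖D i‖ * r := by
      have := hDp i
      positivity
    have h9 : ‖e i s‖ ≤ κ₀ / 64 * r * ‖D i‖ := h5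
    nlinarith) (by
    intro s s' hs hs' i
    have hsr : s ∈ ball (0 : Fin k → ℂ) r := by rw [mem_ball_zero_iff]; linarith
    have hsr' : s' ∈ ball (0 : Fin k → ℂ) r := by rw [mem_ball_zero_iff]; linarith
    rw [hΦe, hΦe, ← sub_div, norm_div, div_le_iff₀ (norm_pos_iff.2 (hκD i))]
    have h1 : ‖q i s' - Z i - e i s' - (q i s - Z i - e i s)‖ ≤
        ‖q i s' - q i s‖ + ‖e i s' - e i s‖ := by
      have h2 : q i s' - Z i - e i s' - (q i s - Z i - e i s) =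
        (q i s' - q i s) - (e i s' - e i s) := by ring
      rw [h2]
      exact norm_sub_le _ _
    have h3 := hqL i s' hsr' s hsr
    have h4 := hel i s s' hs hs'
    have h5 : 1 / 2 * ‖s' - s‖ * (κ₀ * ‖D i‖) ≤ 1 / 2 * ‖s' - s‖ * ‖κ i * D i‖ :=
      mul_le_mul_of_nonneg_left (hκDn i) (by positivity)
    have h6 : 0 ≤ κ₀ * ‖D i‖ * ‖s' - s‖ := by
      have := hDp i
      positivity
    nlinarith)
  refine ⟨s, hs, fun i => ?_⟩
  have h1 := congrFun hfix i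
  have h2 : (Y i s - q i s) / (κ i * D i) = 0 := by
    have h3 : s i - (Y i s - q i s) / (κ i * D i) = s i := h1
    linear_combination -h3
  rw [div_eq_zero_iff] at h2
  rcases h2 with h2 | h2
  · exact sub_eq_zero.1 h2
  · exact absurd h2 (hκD i)

theorem exists_pos_le {k : ℕ} (a : Fin k → ℝ) (ha : ∀ i, 0 < a i) : ∃ b > (0 : ℝ), ∀ i, b ≤ a i := by
  induction k with
  | zero => exact ⟨1, one_pos, fun i => i.elim0⟩
  | succ k ih =>
    obtain ⟨b, hb, hb'⟩ := ih (fun i => a i.succ) (fun i => ha _)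
    refine ⟨min b (a 0), lt_min hb (ha 0), fun i => ?_⟩
    refine Fin.cases (min_le_right _ _) (fun j => (min_le_left _ _).trans (hb' j)) i

theorem t_SOLVE (hscale : S_SCALE) (hfol : S_FOL) : S_SOLVE := by
  intro k f v z x ρ C c μ κ hG Tg h1 h2 r₁ hr₁
  rcases Nat.eq_zero_or_pos k with hk | hk
  · subst hk
    exact ⟨0, by rw [norm_zero]; exact hr₁, fun i => i.elim0⟩
  obtain ⟨η, hη, A, hA, ρ₁, hρ₁, L, hL⟩ := h1
  have i₀ : Fin k := ⟨0, hk⟩
  have hG0 := hG i₀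
  obtain ⟨κ₀, hκ₀, hκ⟩ := exists_pos_le (fun i => ‖κ i‖) fun i => norm_pos_iff.2 (hG i).κ0
  -- following
  have hF := fun i => hfol k i (f i) (v i) (z i) (x i) ρ C c μ (κ i) (hG i) (κ₀ / 64)
    (by positivity)
  choose θ hθ rr hrr N₀ hN₀ using hF
  obtain ⟨θ', hθ', hθle⟩ := exists_pos_le θ hθ
  obtain ⟨r', hr', hrle⟩ := exists_pos_le rr hrr
  -- scales
  set p : Fin k → ℕ → ℝ := fun i n => ‖DD (f i) (z i) n‖ with hp
  have hp0 : ∀ i, p i 0 = 1 := by
    intro i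
    simp [hp, DD]
  have hDne : ∀ i n, DD (f i) (z i) n ≠ 0 := by
    intro i n
    unfold DD
    exact Finset.prod_ne_zero_iff.2 fun j _ => ((hG i).dx j).1
  have hpp : ∀ i n, 0 < p i n := fun i n => norm_pos_iff.2 (hDne i n)
  have hprec : ∀ i n, p i (n + 1) ≤ C * x i n * p i n := by
    intro i n
    have e1 : DD (f i) (z i) (n + 1) = DD (f i) (z i) n * deriv (f i n 0) (z i n) := by
      unfold DD
      rw [Finset.prod_range_succ]
    rw [hp]
    simp only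
    rw [e1, norm_mul, mul_comm]
    exact mul_le_mul_of_nonneg_right ((hG i).dx n).2 (norm_nonneg _)
  set A' : ℝ := 64 * A / κ₀ with hA'
  have hA'0 : 0 < A' := by positivity
  obtain ⟨ε₁, hε₁, hsc⟩ := hscale k C c μ p x hG0.C1 hG0.c0 hG0.μ1 hp0 (fun i n => (hG i).gr n)
    (fun i n => (hG i).xx n) hprec θ' hθ' A' hA'0
  set ε₂ : ℝ := min ε₁ (A' * η) with hε₂
  have hε₂0 : 0 < ε₂ := lt_min hε₁ (mul_pos hA'0 hη)
  obtain ⟨ρ₂, hρ₂, L', hL'⟩ := h2 (κ₀ / 64 * ε₂) (by positivity)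
  set L'' : ℝ := |L| + |L'| with hL''
  have hL''0 : 0 ≤ L'' := by positivity
  -- large times
  obtain ⟨N₁, hN₁⟩ : ∃ N₁ : ℕ, ∀ n ≥ N₁, 64 * L'' / κ₀ ≤ c * μ ^ n := by
    have ht : Tendsto (fun n : ℕ => c * μ ^ n) atTop atTop :=
      (tendsto_pow_atTop_atTop_of_one_lt hG0.μ1).const_mul_atTop hG0.c0
    obtain ⟨N₁, hN₁⟩ := eventually_atTop.1 (ht.eventually_ge_atTop (64 * L'' / κ₀))
    exact ⟨N₁, hN₁⟩
  obtain ⟨N₂, hN₂⟩ : ∃ N₂ : ℕ, ∀ i, N₀ i ≤ N₂ :=
    ⟨Finset.univ.sup N₀, fun i => Finset.le_sup (Finset.mem_univ i)⟩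
  set M : ℕ := max N₁ N₂ with hM
  -- small scales
  obtain ⟨r₂, hr₂, hr₂'⟩ : ∃ r₂ > (0 : ℝ), ∀ r : ℝ, 0 < r → r < r₂ → ∀ i, ∀ n < M,
      r * p i n < ε₁ ∧ r * p i n < A' * x i n := by
    have hfin : ∀ j : Fin k × Fin M, ∀ᶠ r : ℝ in 𝓝[>] 0, r * p j.1 j.2 < ε₁ ∧
        r * p j.1 j.2 < A' * x j.1 j.2 := by
      intro j
      have ht : Tendsto (fun r : ℝ => r * p j.1 j.2) (𝓝[>] 0) (𝓝 0) := by
        have h3 : Tendsto (fun r : ℝ => r * p j.1 j.2) (𝓝 0) (𝓝 (0 * p j.1 j.2)) :=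
          tendsto_id.mul_const _
        rw [zero_mul] at h3
        exact h3.mono_left nhdsWithin_le_nhds
      exact (ht.eventually_lt_const hε₁).and
        (ht.eventually_lt_const (mul_pos hA'0 ((hG j.1).xx j.2).1))
    have h3 := eventually_all.2 hfin
    obtain ⟨r₂, hr₂, hsub⟩ := mem_nhdsGT_iff_exists_Ioo_subset.1 h3
    exact ⟨r₂, hr₂, fun r hr hrr2 i n hn => hsub ⟨hr, hrr2⟩ (i, ⟨n, hn⟩)⟩
  obtain ⟨r, hr, hrlt, hall⟩ := hsc (min (min r' r₁) (min (min ρ₁ ρ₂) r₂)) (by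
    refine lt_min (lt_min hr' hr₁) (lt_min (lt_min hρ₁ hρ₂) hr₂))
  have hrr' : r < r' := hrlt.trans_le ((min_le_left _ _).trans (min_le_left _ _))
  have hrr₁ : r < r₁ := hrlt.trans_le ((min_le_left _ _).trans (min_le_right _ _))
  have hrρ₁ : r < ρ₁ := hrlt.trans_le
    ((min_le_right _ _).trans ((min_le_left _ _).trans (min_le_left _ _)))
  have hrρ₂ : r < ρ₂ := hrlt.trans_le
    ((min_le_right _ _).trans ((min_le_left _ _).trans (min_le_right _ _)))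
  have hrr₂ : r < r₂ := hrlt.trans_le ((min_le_right _ _).trans (min_le_right _ _))
  choose N hNs hNa using hall
  have hNM : ∀ i, M ≤ N i := by
    intro i
    by_contra hcon
    push Not at hcon
    have h3 := hr₂' r hr hrr₂ i (N i) hcon
    rcases hNa i with h4 | h4
    · linarith [h3.1]
    · linarith [h3.2]
  have hfollow : ∀ i, DifferentiableOn ℂ (YY (f i) (v i) (N i)) (ball 0 r) ∧
      ∀ s ∈ ball (0 : Fin k → ℂ) r, (∀ n < N i, ‖YY (f i) (v i) n s - z i n‖ < ρ) ∧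
        ‖YY (f i) (v i) (N i) s - z i (N i) - κ i * DD (f i) (z i) (N i) * s i‖ ≤
          κ₀ / 64 * r * ‖DD (f i) (z i) (N i)‖ := by
    intro i
    refine hN₀ i r (N i) hr (hrr'.le.trans (hrle i)) ?_ ?_
    · exact (hN₂ i).trans ((le_max_right N₁ N₂).trans (hNM i))
    · exact (hNs i).trans (hθle i)
  -- the targets
  have htar : ∀ i, ∃ (ρ' : ℝ) (L₁ : ℝ) (q : (Fin k → ℂ) → ℂ), r < ρ' ∧ |L₁| ≤ L'' ∧
      Tg i (N i) ρ' q ∧ IsT q ρ' L₁ ∧ ‖q 0 - z i (N i)‖ ≤ κ₀ / 64 * r * p i (N i) := by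
    intro i
    by_cases hc : A' * x i (N i) ≤ r * p i (N i) ∧ x i (N i) ≤ η
    · obtain ⟨q, hq1, hq2, hq3⟩ := hL i (N i) hc.2
      refine ⟨ρ₁, L, q, hrρ₁, by rw [hL'']; linarith [abs_nonneg L'], hq1, hq2, hq3.trans ?_⟩
      have h3 := hc.1
      have h4 : κ₀ / 64 * (A' * x i (N i)) ≤ κ₀ / 64 * (r * p i (N i)) :=
        mul_le_mul_of_nonneg_left h3 (by positivity)
      have h5 : κ₀ / 64 * (A' * x i (N i)) = A * x i (N i) := by
        rw [hA']
        field_simp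
      rw [← h5, mul_assoc]
      exact h4
    · have hge : ε₂ ≤ r * p i (N i) := by
        rcases hNa i with h4 | h4
        · exact (min_le_left _ _).trans h4
        · have h5 : ¬ x i (N i) ≤ η := fun h6 => hc ⟨h4, h6⟩
          push Not at h5
          have h6 : A' * η ≤ A' * x i (N i) := mul_le_mul_of_nonneg_left h5.le hA'0.le
          exact (min_le_right _ _).trans (h6.trans h4)
      obtain ⟨q, hq1, hq2, hq3⟩ := hL' i (N i)
      refine ⟨ρ₂, L', q, hrρ₂, by rw [hL'']; linarith [abs_nonneg L], hq1, hq2, hq3.trans ?_⟩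
      rw [mul_assoc]
      exact mul_le_mul_of_nonneg_left hge (by positivity)
  choose ρ' L₁ q hrρ' hL₁ hTg hIsT hq0 using htar
  obtain ⟨s, hs, hsol⟩ := solve_aux hr hκ₀ (fun i => YY (f i) (v i) (N i)) q κ
    (fun i => DD (f i) (z i) (N i)) (fun i => z i (N i)) hκ (fun i => hDne i (N i))
    (fun i => (hfollow i).1) (fun i s hs => ((hfollow i).2 s hs).2) hq0 (by
      intro i s hs s' hs'
      have h3 := hIsT i s (ball_subset_ball (hrρ' i).le hs) s' (ball_subset_ball (hrρ' i).le hs')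
      have h4 : L₁ i ≤ κ₀ / 64 * ‖DD (f i) (z i) (N i)‖ := by
        have h5 := hN₁ (N i) ((le_max_left N₁ N₂).trans (hNM i))
        have h6 := (hG i).gr (N i)
        have h7 : 64 * L'' / κ₀ ≤ ‖DD (f i) (z i) (N i)‖ := h5.trans h6
        rw [div_le_iff₀ hκ₀] at h7
        have h8 := (le_abs_self (L₁ i)).trans (hL₁ i)
        linarith
      exact h3.trans (mul_le_mul_of_nonneg_right h4 (norm_nonneg _)))
  refine ⟨s, by linarith, fun i => ⟨N i, ρ' i, q i, hTg i, ?_, hsol i, ?_⟩⟩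
  · have := hrρ' i
    linarith
  · exact ((hfollow i).2 s (by rw [mem_ball_zero_iff]; linarith)).1

end Pool.Agent.H190.HY211
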